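import Pool.Agent.Helper97.NR.Defs

set_option autoImplicit false

/-! Part N1 of the NR swarm (MP_b63a31_co): nonrepetitive colourings, walks and lists. -/

namespace Pool.Agent.Helper79.NR

open Pool.Agent.Helper97.NR

/-- N1: nonrepetitive colourings in terms of walks and of lists. -/
theorem nonRep_of_walks {W : Type} {k : ℕ} (G : SimpleGraph W) (f : W → Fin k)
    (h : ∀ (u v : W) (p : G.Walk u v), p.IsPath →
      ∀ t : ℕ, p.support.length = 2 * t → (p.support.take t).map f ≠ (p.support.drop t).map f) :
    NonRep G f := by
  intro p q hp hnd hch heq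
  have hne : p ++ q ≠ [] := by simp [hp]
  have hlen : p.length = q.length := by
    have := congrArg List.length heq
    simpa using this
  have hs := SimpleGraph.Walk.support_ofSupport (G := G) hne hch
  refine h _ _ (SimpleGraph.Walk.ofSupport (G := G) (p ++ q) hne hch) ?_ p.length ?_ ?_
  · rw [SimpleGraph.Walk.isPath_def, hs]
    exact hnd
  · rw [hs, List.length_append]; omega
  · rw [hs, List.take_left, List.drop_left]
    exact heq

end Pool.Agent.Helper79.NR
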